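import Pool.Agent.MP_48470b_gt.Emb.B4
import Pool.Agent.MP_48470b_gt.Sph.Defs

/-! Embeddedness of small perturbations, in the algebra of smooth functions on the sphere. -/

set_option autoImplicit false

open Set Function
open scoped RealInnerProductSpace

noncomputable section

namespace Pool.Agent.MP_48470b_gt.Emb

open Sph

/-- the squared norm -/
def sq4 (X : Fin 4 → ℝ) : ℝ := X 0 ^ 2 + X 1 ^ 2 + X 2 ^ 2 + X 3 ^ 2

/-- the multiplier -/
def la (X : Fin 4 → ℝ) : ℝ := sq4 X + 6 * (X 0 ^ 2 + X 1 * (X 1 + X 2 + X 3))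

/-- the component of the unfolding field along `N` -/
def tv (X N : Fin 4 → ℝ) : ℝ := la X * (X 0 * N 0 + X 1 * N 1 + X 2 * N 2 + X 3 * N 3) -
  6 * sq4 X * (X 0 * N 0 + X 1 * (N 1 + N 2 + N 3))

/-- the inequalities to be checked at a point `X` with normal vector `N` -/
structure Chk (X N : Fin 4 → ℝ) : Prop where
  ne : 0 < sq4 N
  tr : sq4 X ^ 3 * sq4 N ≤ 16 * tv X N ^ 2
  bd : 1 / 4 ≤ sq4 X
  ml : sq4 X / 2 ≤ la X
  cs : 1 / 100 ≤ X 1 ∧ 1 / 100 ≤ X 3 ∧ 101 / 100 ≤ sq4 X ∨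
    |X 1| + 1 / 100 ≤ X 3 ∧ sq4 X ≤ 6 / 5

theorem ip4 (X Y : V4) : ⟪X, Y⟫ = X 0 * Y 0 + X 1 * Y 1 + X 2 * Y 2 + X 3 * Y 3 := by
  simp [PiLp.inner_apply, Fin.sum_univ_four, mul_comm]

theorem sq4_eq (X : V4) : sq4 X = ‖X‖ ^ 2 := by
  rw [← real_inner_self_eq_norm_sq, ip4, sq4]
  ring

theorem Pb_le (X : V4) : ‖Pb X‖ ≤ 2 * ‖X‖ := by
  refine (abs_le_of_sq_le_sq' ?_ (by positivity)).2
  rw [mul_pow, ← sq4_eq, ← sq4_eq]
  simp only [sq4, Pb_eq]
  simp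
  nlinarith [sq_nonneg (X 0), sq_nonneg (X 1), sq_nonneg (X 2), sq_nonneg (X 3)]

theorem pert {X h N : V4} (c : Chk X N) (hh : ‖h‖ ≤ 1 / 2000) :
    (∀ (a : ℝ) (T t : V4), ⟪T, N⟫ = 0 → ‖t‖ ≤ ‖T‖ / 100 →
      a • Zf Pb 2 (X + h) + (T + t) = 0 → a = 0 ∧ T = 0) ∧
    0 < La Pb 2 (X + h) ∧ 0 < Th Pb 2 (X + h) 3 := by
  obtain ⟨r, hr⟩ : ∃ r, ‖X‖ = r := ⟨_, rfl⟩
  have e0 : sq4 X = r ^ 2 := hr ▸ sq4_eq X
  have r0 : 1 / 2 ≤ r :=
    (abs_le_of_sq_le_sq' (by linarith [c.bd]) (hr ▸ norm_nonneg X)).2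
  have h1 : ‖h‖ ≤ r / 1000 := by linarith
  have y8 : ‖X + h‖ ≤ 1001 / 1000 * r := (norm_add_le _ _).trans (by linarith)
  have q : ∀ a b : V4, |⟪a, b⟫| ≤ ‖a‖ * ‖b‖ := abs_real_inner_le_norm
  have q' : ∀ a b : V4, |⟪a, Pb b⟫| ≤ 2 * (‖a‖ * ‖b‖) := fun a b =>
    (q _ _).trans (by nlinarith [Pb_le b, norm_nonneg a])
  have m1 := mul_le_mul hr.le h1 (norm_nonneg _) (by linarith)
  have m2 := mul_le_mul y8 h1 (norm_nonneg _) (by linarith)
  have r2 : 0 < r ^ 2 := by positivity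
  have r3 : 0 < r ^ 3 := by positivity
  have d1 : |⟪X + h, X + h⟫ - ⟪X, X⟫| ≤ r ^ 2 / 499 := by
    rw [show ⟪X + h, X + h⟫ - ⟪X, X⟫ = ⟪X + h, h⟫ + ⟪X, h⟫ by
      simp only [inner_add_left, inner_add_right, real_inner_comm X h]; ring]
    linarith [abs_add_le ⟪X + h, h⟫ ⟪X, h⟫, q (X + h) h, q X h]
  have d2 : |⟪X + h, Pb (X + h)⟫ - ⟪X, Pb X⟫| ≤ r ^ 2 / 249 := by
    rw [show ⟪X + h, Pb (X + h)⟫ - ⟪X, Pb X⟫ = ⟪X + h, Pb h⟫ + ⟪h, Pb X⟫ by
      simp only [inner_add_left, inner_add_right, map_add]; ring]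
    linarith [abs_add_le ⟪X + h, Pb h⟫ ⟪h, Pb X⟫, q' (X + h) h, q' h X, mul_comm ‖h‖ ‖X‖]
  have e1 : La Pb 2 X = la X := by
    simp only [La, la, sq4, ip4, Pb_eq]
    simp
    ring
  have e2 : ⟪X, X⟫ = r ^ 2 := by rw [← hr, real_inner_self_eq_norm_sq]
  have d3 : |La Pb 2 (X + h) - La Pb 2 X| ≤ r ^ 2 / 38 := by
    simp only [La]
    rw [abs_le] at d1 d2 ⊢
    constructor <;> push_cast <;> linarith [d1.1, d1.2, d2.1, d2.2]
  have l : |La Pb 2 X| ≤ 13 * r ^ 2 := by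
    have := q' X X
    simp only [La, e2]
    rw [hr, abs_le] at this
    rw [abs_le]
    constructor <;> push_cast <;> linarith [this.1, this.2]
  refine ⟨fun a T t o s e => ?_, ?_, ?_⟩
  · have n : ∀ (r b : ℝ) (v : V4) (w : ℝ), |r| ≤ b → ‖v‖ ≤ w → ‖r • v‖ ≤ b * w := fun r b v w p u => by
      rw [norm_smul, Real.norm_eq_abs]
      exact mul_le_mul p u (norm_nonneg _) ((abs_nonneg _).trans p)
    have s1 : |⟪X, X⟫| ≤ r ^ 2 := by rw [e2, abs_of_pos r2]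
    have z1 : ‖Zf Pb 2 (X + h) - Zf Pb 2 X‖ ≤ r ^ 3 / 12 := by
      rw [show Zf Pb 2 (X + h) - Zf Pb 2 X = (La Pb 2 (X + h) - La Pb 2 X) • (X + h) +
        La Pb 2 X • h - (6 : ℝ) • ((⟪X + h, X + h⟫ - ⟪X, X⟫) • Pb (X + h) + ⟪X, X⟫ • Pb h) by
          simp only [Zf, map_add]; push_cast; module]
      refine (norm_sub_le _ _).trans ?_
      have a1 := n _ _ _ _ d3 y8
      have a2 := n _ _ _ _ l h1
      have a3 := n _ _ _ (1001 / 500 * r) d1 ((Pb_le (X + h)).trans (by linarith))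
      have a4 := n _ _ _ (r / 500) s1 ((Pb_le h).trans (by linarith))
      have a5 := n 6 6 _ _ (by norm_num) ((norm_add_le _ _).trans (add_le_add a3 a4))
      linarith [norm_add_le ((La Pb 2 (X + h) - La Pb 2 X) • (X + h)) (La Pb 2 X • h)]
    have z2 : ‖Zf Pb 2 X‖ ≤ 13 * r ^ 3 := by
      refine (abs_le_of_sq_le_sq' ?_ (by positivity)).2
      have p := mul_self_le_mul_self (norm_nonneg _) (Pb_le X)
      rw [← real_inner_self_eq_norm_mul_norm, hr] at p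
      rw [← real_inner_self_eq_norm_sq]
      simp only [Zf, La, inner_sub_left, inner_sub_right, real_inner_smul_left,
        real_inner_smul_right, e2, real_inner_comm X (Pb X)]
      push_cast
      nlinarith [mul_le_mul_of_nonneg_left p (sq_nonneg (r ^ 2)), mul_pos r3 r3,
        mul_nonneg r2.le (sq_nonneg ⟪X, Pb X⟫)]
    have z3 : ‖Zf Pb 2 (X + h)‖ ≤ 14 * r ^ 3 := by
      linarith [norm_sub_norm_le (Zf Pb 2 (X + h)) (Zf Pb 2 X)]
    have N0 : 0 < ‖N‖ := by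
      have := c.ne
      rw [sq4_eq] at this
      exact (norm_nonneg N).lt_of_ne fun e => by simp [← e] at this
    have z4 : r ^ 3 * ‖N‖ / 4 ≤ |⟪Zf Pb 2 X, N⟫| := by
      have := c.tr
      rw [sq4_eq N, show tv X N = ⟪Zf Pb 2 X, N⟫ by
        simp only [Zf, e1, e2, ← e0, tv, inner_sub_left, real_inner_smul_left]
        simp [ip4, Pb_eq]
        ring, e0] at this
      exact (abs_le_of_sq_le_sq' (by rw [sq_abs]; linarith) (abs_nonneg _)).2
    have z5 : r ^ 3 / 6 * ‖N‖ ≤ |⟪Zf Pb 2 (X + h), N⟫| := by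
      have := (q (Zf Pb 2 (X + h) - Zf Pb 2 X) N).trans (mul_le_mul_of_nonneg_right z1 N0.le)
      rw [inner_sub_left, abs_sub_comm] at this
      linarith [abs_sub_abs_le_abs_sub ⟪Zf Pb 2 X, N⟫ ⟪Zf Pb 2 (X + h), N⟫]
    have k1 : |a| * |⟪Zf Pb 2 (X + h), N⟫| ≤ ‖t‖ * ‖N‖ := by
      have := congrArg (fun w => ⟪w, N⟫) e
      simp only [inner_add_left, real_inner_smul_left, o, inner_zero_left, zero_add] at this
      rw [← abs_mul, show a * ⟪Zf Pb 2 (X + h), N⟫ = -⟪t, N⟫ from eq_neg_of_add_eq_zero_left this,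
        abs_neg]
      exact q _ _
    have k2 : |a| * r ^ 3 / 6 ≤ ‖t‖ := le_of_mul_le_mul_right (by
      linarith [mul_le_mul_of_nonneg_left z5 (abs_nonneg a)]) N0
    have k3 : ‖T‖ ≤ |a| * (14 * r ^ 3) + ‖t‖ := by
      rw [show T = -(a • Zf Pb 2 (X + h) + t) by linear_combination (norm := module) e, norm_neg]
      linarith [norm_add_le (a • Zf Pb 2 (X + h)) t, n a _ _ _ le_rfl z3]
    have k4 : ‖T‖ ≤ 0 := by linarith
    exact ⟨abs_nonpos_iff.1 (by nlinarith), norm_le_zero_iff.1 k4⟩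
  · linarith [(abs_le.1 d3).1, c.ml]
  · have c1 := abs_le.1 ((PiLp.norm_apply_le h 1).trans hh)
    have c3 := abs_le.1 ((PiLp.norm_apply_le h 3).trans hh)
    have s0 : 0 ≤ ⟪X + h, X + h⟫ := real_inner_self_nonneg
    rw [e2, abs_le] at d1
    show 0 < X 3 + h 3 + (⟪X + h, X + h⟫ ^ (2 + 1) - 1) * (X 1 + h 1)
    set s := ⟪X + h, X + h⟫
    rcases c.cs with ⟨a, b, d⟩ | ⟨a, b⟩
    · have : 1 ≤ s ^ (2 + 1) := one_le_pow₀ (by linarith [d1.1])
      nlinarith [c1.1, c3.1]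
    · have : s ^ (2 + 1) ≤ (5 / 4) ^ (2 + 1) := pow_le_pow_left₀ s0 (by linarith [d1.2]) _
      have t : |s ^ (2 + 1) - 1| ≤ 1 := abs_le.2 ⟨by linarith [pow_nonneg s0 (2 + 1)], by
        linarith [this.trans (by norm_num : ((5 / 4 : ℝ)) ^ (2 + 1) ≤ 2)]⟩
      have u : |X 1 + h 1| ≤ |X 1| + 1 / 2000 := (abs_add_le _ _).trans (by
        linarith [abs_le.2 c1])
      have := mul_le_mul t u (abs_nonneg _) zero_le_one
      rw [← abs_mul] at this
      generalize (s ^ (2 + 1) - 1) * (X 1 + h 1) = w at this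
      linarith [(abs_le.1 this).1, c3.1]

theorem frame (x : S3) (v : E4) (h : ⟪(x : E4), v⟫ = 0) :
    v = ∑ i, ⟪mat (eM i) x, v⟫ • mat (eM i) x := by
  have n := sq4_eq x
  rw [S3.norm, sq4] at n
  rw [ip4] at h
  have a : ∀ (M : Matrix (Fin 4) (Fin 4) ℝ) j, mat M x j = ∑ l, M j l * x.1 l := fun M j => rfl
  ext j
  fin_cases j <;> simp [ip4, Fin.sum_univ_three, a, Fin.sum_univ_four, eM]
  · linear_combination x.1 0 * h - v 0 * n
  · linear_combination x.1 1 * h - v 1 * n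
  · linear_combination x.1 2 * h - v 2 * n
  · linear_combination x.1 3 * h - v 3 * n

/-- the value of a map at a point -/
def pt (f : Fin 4 → R) (x : S3) : E4 := WithLp.toLp 2 fun j => f j x

/-- the derivative of a map at a point in the direction with coordinates `c` -/
def dr (f : Fin 4 → R) (x : S3) (c : Fin 3 → ℝ) : E4 :=
  WithLp.toLp 2 fun j => ∑ i, c i * E i (f j) x

/-- the embedding theorem: `f` passes the check on the chamber and `e` is small -/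
theorem emb_pert (f e : Fin 4 → R)
    (heq : ∀ σ (ε : Fin 4 → ℝ), (∀ i, ε i = 1 ∨ ε i = -1) → ∀ x y : S3, Sp σ ε x y →
      ∀ i, (f i + e i) y = ε i * (f (σ i) + e (σ i)) x)
    (h : ∀ x : S3, Ch x → (∃ N : Fin 4 → ℝ, Chk (fun j => f j x) N ∧
      ∀ i, ∑ j, E i (f j) x * N j = 0) ∧ (∀ c, dr f x c = 0 → c = 0) ∧
      ‖pt e x‖ ≤ 1 / 2000 ∧ ∀ c, ‖dr e x c‖ ≤ ‖dr f x c‖ / 100) :
    Injective (pt (f + e)) := by
  let G : E4 → E4 := fun x => WithLp.toLp 2 fun j => hom (f j + e j) x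
  have g : ∀ x : S3, G x = pt (f + e) x := fun x => by simp [G, pt]
  have := emb_B4 2 G (fun σ ε s x y p q i => ?_) fun x p q => ?_
  · exact fun x y r => Subtype.ext (this x.2 y.2 (by rw [g, g, r]))
  · obtain ⟨w, hw⟩ := ex_sp σ ε s
    have y1 : ‖y‖ = 1 := by
      rw [show y = w x from PiLp.ext fun i => (q i).trans (hw x i).symm, w.norm_map, p]
    lift x to S3 using mem_sphere_zero_iff_norm.2 p
    lift y to S3 using mem_sphere_zero_iff_norm.2 y1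
    rw [g, g]
    exact heq σ ε s x y q i
  · lift x to S3 using mem_sphere_zero_iff_norm.2 p
    obtain ⟨⟨N, c, o⟩, i, s, t⟩ := h x q
    obtain ⟨p1, p2⟩ := pert (X := pt f x) (N := WithLp.toLp 2 N) c s
    have d : ContDiffAt ℝ 1 G x := contDiffAt_euclidean.2 fun j =>
      ((f j + e j).sm (S3.ne x)).of_le (by simp)
    rw [g, show pt (f + e) x = pt f x + pt e x from rfl]
    refine ⟨_, d.hasStrictFDerivAt one_ne_zero, fun a v hv z => ?_, p2⟩
    have k : ∀ c, fderiv ℝ G x (∑ i, c i • mat (eM i) x) = dr f x c + dr e x c := fun c => by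
      ext j
      have := ((EuclideanSpace.proj j : E4 →L[ℝ] ℝ).hasFDerivAt.comp (x : E4)
        (d.differentiableAt one_ne_zero).hasFDerivAt).fderiv
      have u : ∀ i, fderiv ℝ G x (mat (eM i) x) j = E i (f j + e j) x := fun i =>
        (congrArg (fun L => L (mat (eM i) x)) this).symm
      simp [dr, u, mul_add, Finset.sum_add_distrib]
    rw [frame x v hv, k] at z
    have ot : ∀ c, ⟪dr f x c, WithLp.toLp 2 N⟫ = 0 := fun c => by
      have o0 := o 0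
      have o1 := o 1
      have o2 := o 2
      simp only [Fin.sum_univ_four] at o0 o1 o2
      simp only [ip4, dr, Fin.sum_univ_three]
      linear_combination c 0 * o0 + c 1 * o1 + c 2 * o2
    obtain ⟨a0, t0⟩ := p1 a _ _ (ot _) (t _) z
    refine ⟨a0, (frame x v hv).trans (Finset.sum_eq_zero fun j _ => ?_)⟩
    rw [congrFun (i _ t0) j]
    exact zero_smul _ _

theorem not_round {F : S3 → E4} {x y : S3} (h : ‖F x‖ < ‖F y‖) :
    ¬ ∃ r : ℝ, 0 < r ∧ range F = Metric.sphere 0 r := fun ⟨r, _, e⟩ => by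
  have k : ∀ z, ‖F z‖ = r := fun z => mem_sphere_zero_iff_norm.1 (e ▸ mem_range_self z)
  exact h.ne ((k x).trans (k y).symm)

end Pool.Agent.MP_48470b_gt.Emb
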