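import Pool.Agent.MP_48470b_gt.Emb.Main

/-! The criterion for the group of signed permutations of four coordinates. -/

set_option autoImplicit false

open Set Function
open scoped RealInnerProductSpace

noncomputable section

namespace Pool.Agent.MP_48470b_gt.Emb

/-- four-space -/
abbrev V4 := EuclideanSpace ℝ (Fin 4)

/-- `y` is the image of `x` under the signed permutation `(σ, ε)` -/
def Sp (σ : Equiv.Perm (Fin 4)) (ε : Fin 4 → ℝ) (x y : V4) : Prop := ∀ i, y i = ε i * x (σ i)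

/-- `F` commutes with the signed permutations on the unit sphere -/
def Eqv (F : V4 → V4) : Prop := ∀ σ (ε : Fin 4 → ℝ), (∀ i, ε i = 1 ∨ ε i = -1) → ∀ x y, ‖x‖ = 1 →
  Sp σ ε x y → Sp σ ε (F x) (F y)

/-- the chamber -/
def Ch (x : V4) : Prop := 0 ≤ x 0 ∧ x 0 ≤ x 1 ∧ x 1 ≤ x 2 ∧ x 2 ≤ x 3

/-- simple roots -/
def rho : V4 ≃L[ℝ] Fin 4 → ℝ := LinearEquiv.toContinuousLinearEquiv
  { toFun := fun x => ![x 0, x 1 - x 0, x 2 - x 1, x 3 - x 2]
    invFun := fun y => !₂[y 0, y 0 + y 1, y 0 + y 1 + y 2, y 0 + y 1 + y 2 + y 3]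
    map_add' := fun x y => by ext i; fin_cases i <;> simp <;> ring
    map_smul' := fun c x => by ext i; fin_cases i <;> simp <;> ring
    left_inv := fun x => by ext i; fin_cases i <;> simp
    right_inv := fun y => by ext i; fin_cases i <;> simp }

theorem rho_eq (x : V4) : rho x = ![x 0, x 1 - x 0, x 2 - x 1, x 3 - x 2] := rfl

theorem rho_ch (x : V4) : 0 ≤ rho x ↔ Ch x := by
  simp [rho_eq, Pi.le_def, Fin.forall_fin_succ, Ch]

/-- projection to the outer edge -/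
def Pb : V4 →L[ℝ] V4 := LinearMap.toContinuousLinearMap
  { toFun := fun x => !₂[x 0, x 1, x 1, x 1]
    map_add' := fun x y => by ext i; fin_cases i <;> simp
    map_smul' := fun c x => by ext i; fin_cases i <;> simp }

theorem Pb_eq (x : V4) : Pb x = !₂[x 0, x 1, x 1, x 1] := rfl

theorem ex_sp (σ : Equiv.Perm (Fin 4)) (ε : Fin 4 → ℝ) (h : ∀ i, ε i = 1 ∨ ε i = -1) :
    ∃ g : V4 ≃ₗᵢ[ℝ] V4, ∀ x, Sp σ ε x (g x) := by
  refine ⟨(LinearIsometryEquiv.piLpCongrLeft 2 ℝ ℝ σ.symm).trans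
    (LinearIsometryEquiv.piLpCongrRight 2 fun i =>
      if ε i = 1 then .refl ℝ ℝ else .neg ℝ), fun x i => ?_⟩
  rcases h i with e | e
  · simp [e, Equiv.piCongrLeft']
  · simp [e, show (-1 : ℝ) ≠ 1 by norm_num, Equiv.piCongrLeft']

theorem Ch.mono {x : V4} (h : Ch x) : Monotone (fun i => x i) ∧ ∀ i, 0 ≤ x i := by
  obtain ⟨a, b, c, d⟩ := h
  refine ⟨Fin.monotone_iff_le_succ.2 fun i => ?_, fun i => ?_⟩
  · fin_cases i
    exacts [b, c, d]
  · fin_cases i <;> simp <;> linarith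

theorem pat4 {a b c d a' b' c' d' : ℝ} (h0 : 0 ≤ a) (h1 : a ≤ b) (h2 : b ≤ c) (h3 : c ≤ d)
    (s0 : a = 0 → a' = 0) (s1 : b - a = 0 → b' - a' = 0) (s2 : c - b = 0 → c' - b' = 0)
    (s3 : d - c = 0 → d' - c' = 0) (i j : Fin 4) :
    (![a, b, c, d] i = ![a, b, c, d] j → ![a', b', c', d'] i = ![a', b', c', d'] j) ∧
      (![a, b, c, d] i = 0 → ![a', b', c', d'] i = 0) := by
  fin_cases i <;> fin_cases j <;> simp <;> grind

theorem cham : Cham rho {g | ∃ σ ε, (∀ i, ε i = 1 ∨ ε i = -1) ∧ ∀ x, Sp σ ε x (g x)} := by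
  refine ⟨fun x => ?_, ?_, ⟨1, fun _ => 1, fun _ => .inl rfl, fun x i => by simp⟩, fun j => ?_⟩
  · let σ := Tuple.sort fun i => |x i|
    have h : ∀ i, (if 0 ≤ x (σ i) then (1 : ℝ) else -1) = 1 ∨ (if 0 ≤ x (σ i) then (1 : ℝ) else -1) = -1 :=
      fun i => by split_ifs <;> simp
    obtain ⟨g, hg⟩ := ex_sp σ _ h
    refine ⟨g, ⟨_, _, h, hg⟩, (rho_ch _).2 ?_⟩
    have e : ∀ i, g x i = |x (σ i)| := fun i => by
      rw [hg x i]
      dsimp only
      split_ifs with c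
      · rw [one_mul, abs_of_nonneg c]
      · rw [neg_one_mul, abs_of_neg (not_le.1 c)]
    have m := Tuple.monotone_sort fun i => |x i|
    simp only [Ch, e]
    exact ⟨abs_nonneg _, m (by decide), m (by decide), m (by decide)⟩
  · rintro g ⟨σ, ε, h, hg⟩ g' ⟨σ', ε', h', hg'⟩ z x p q r s
    rw [rho_ch] at p q r
    have ab : ∀ (σ : Equiv.Perm (Fin 4)) (ε : Fin 4 → ℝ) (y : V4), (∀ i, ε i = 1 ∨ ε i = -1) →
        Sp σ ε z y → Ch y → (fun i => |z i|) ∘ σ = fun i => y i := fun σ ε y h e c => funext fun i => by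
      rw [← abs_of_nonneg (c.mono.2 i), e i]
      rcases h i with e | e <;> simp [e]
    have u := Tuple.unique_monotone (f := fun i => |z i|) (σ := σ) (τ := σ')
      (ab _ _ _ h (hg z) p ▸ p.mono.1) (ab _ _ _ h' (hg' z) q ▸ q.mono.1)
    have s0 : g z 0 = 0 → g x 0 = 0 := s 0
    have s1 : g z 1 - g z 0 = 0 → g x 1 - g x 0 = 0 := s 1
    have s2 : g z 2 - g z 1 = 0 → g x 2 - g x 1 = 0 := s 2
    have s3 : g z 3 - g z 2 = 0 → g x 3 - g x 2 = 0 := s 3
    have pat : ∀ i j, (g z i = g z j → g x i = g x j) ∧ (g z i = 0 → g x i = 0) := by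
      obtain ⟨a, b, c, d⟩ := p
      have f : ∀ (y : V4) (i : Fin 4), y i = ![y 0, y 1, y 2, y 3] i := fun y i => by
        fin_cases i <;> rfl
      intro i j
      rw [f (g z) i, f (g z) j, f (g x) i, f (g x) j]
      exact pat4 a b c d s0 s1 s2 s3 i j
    ext i
    obtain ⟨j, hj⟩ := σ.surjective (σ' i)
    have e1 := congrFun (ab _ _ _ h (hg z) p) j
    have e2 := congrFun (u.symm.trans (ab _ _ _ h (hg z) p)) i
    have e3 := congrFun (ab _ _ _ h' (hg' z) q) i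
    simp only [comp, hj] at e1 e2 e3
    have a1 := hg z j
    have a2 := hg' z i
    have a3 := hg x j
    have a4 := hg' x i
    have a5 := (pat i j).1 (e2.symm.trans e1)
    have a6 := (pat i j).2
    rw [hj] at a1 a3
    rcases h j with e | e <;> rcases h' i with e' | e' <;> rw [e] at a1 a3 <;>
      rw [e'] at a2 a4
    · linarith
    · linarith [a6 (by linarith)]
    · linarith [a6 (by linarith)]
    · linarith
  · have sw : ∀ a b : Fin 4, ∃ g ∈ {g : V4 ≃ₗᵢ[ℝ] V4 | ∃ σ ε, (∀ i, ε i = 1 ∨ ε i = -1) ∧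
        ∀ x, Sp σ ε x (g x)}, ∀ x, g x = x ↔ x b - x a = 0 := fun a b => by
      obtain ⟨g, hg⟩ := ex_sp (Equiv.swap a b) (fun _ => 1) fun _ => .inl rfl
      refine ⟨g, ⟨_, _, fun _ => .inl rfl, hg⟩, fun x => ⟨fun e => ?_, fun e => ?_⟩⟩
      · have := hg x a
        rw [e, Equiv.swap_apply_left] at this
        linarith
      · ext i
        rw [hg x i, one_mul]
        exact Equiv.apply_swap_eq_self (v := fun i => x i) (sub_eq_zero.1 e).symm i
    fin_cases j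
    · have h : ∀ i : Fin 4, ![(-1 : ℝ), 1, 1, 1] i = 1 ∨ ![(-1 : ℝ), 1, 1, 1] i = -1 := fun i => by
        fin_cases i <;> simp
      obtain ⟨g, hg⟩ := ex_sp 1 _ h
      refine ⟨g, ⟨_, _, h, hg⟩, fun x => ⟨fun e => ?_, fun e => ?_⟩⟩
      · have := hg x 0
        simp [e] at this
        simp [rho_eq]
        linarith
      · ext i
        simp [rho_eq] at e
        rw [hg x i]
        fin_cases i <;> simp [e]
    exacts [sw 0 1, sw 1 2, sw 2 3]

theorem emb_B4 (k : ℕ) (F : V4 → V4) (heq : Eqv F)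
    (h : ∀ x, ‖x‖ = 1 → Ch x → ∃ D : V4 →L[ℝ] V4, HasStrictFDerivAt F D x ∧
      (∀ (a : ℝ) v, ⟪x, v⟫ = 0 → a • Zf Pb k (F x) + D v = 0 → a = 0 ∧ v = 0) ∧
      0 < La Pb k (F x) ∧ 0 < Th Pb k (F x) 3) : InjOn F (Metric.sphere 0 1) := by
  refine emb cham Pb (fun j => ?_) k F ?_ fun x p q => ?_
  · fin_cases j <;> simp [rho_eq, Pb_eq]
  · rintro g ⟨σ, ε, s, hg⟩ x p
    ext i
    rw [heq σ ε s x _ p (hg x) i, hg _ i]
  · obtain ⟨D, a, b, c, d⟩ := h x p ((rho_ch x).1 q)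
    exact ⟨D, a, b, c, d.trans_eq (by simp [rho_eq, Fin.sum_univ_four])⟩

end Pool.Agent.MP_48470b_gt.Emb
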