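import Pool.Agent.MP_48470b_gt.Emb.Orth

/-! An equivariant immersion of the sphere that is transverse to the unfolding field is injective. -/

set_option autoImplicit false

open Set Filter Topology Function
open scoped RealInnerProductSpace

noncomputable section

namespace Pool.Agent.MP_48470b_gt.Emb

variable {n : ℕ} {E : Type} [NormedAddCommGroup E] [InnerProductSpace ℝ E]

/-- `ρ ≥ 0` is a chamber for the set `Γ` of isometries -/
structure Cham (ρ : E ≃L[ℝ] Fin n → ℝ) (Γ : Set (E ≃ₗᵢ[ℝ] E)) : Prop where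
  cover : ∀ x, ∃ g ∈ Γ, 0 ≤ ρ (g x)
  stab : ∀ g ∈ Γ, ∀ g' ∈ Γ, ∀ z x, 0 ≤ ρ (g z) → 0 ≤ ρ (g' z) → 0 ≤ ρ (g x) →
    (∀ i, ρ (g z) i = 0 → ρ (g x) i = 0) → g' x = g x
  one : LinearIsometryEquiv.refl ℝ E ∈ Γ
  refl : ∀ j, ∃ g ∈ Γ, ∀ x, g x = x ↔ ρ x j = 0

/-- the unfolding map -/
def Th (P : E →L[ℝ] E) (k : ℕ) (X : E) : E := X + (⟪X, X⟫ ^ (k + 1) - 1) • P X

/-- the multiplier -/
def La (P : E →L[ℝ] E) (k : ℕ) (X : E) : ℝ := ⟪X, X⟫ + 2 * (k + 1) * ⟪X, P X⟫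

/-- the field whose orbits are collapsed by the unfolding map -/
def Zf (P : E →L[ℝ] E) (k : ℕ) (X : E) : E := La P k X • X - (2 * (k + 1) * ⟪X, X⟫) • P X

theorem Th_der (P : E →L[ℝ] E) (hP : ∀ x, P (P x) = P x) (k : ℕ) (X : E) (h0 : X ≠ 0)
    (h : 0 < La P k X) : ∃ D : E →L[ℝ] E, HasStrictFDerivAt (Th P k) D X ∧ Injective D ∧
      D (Zf P k X) = La P k X • Th P k X := by
  have c : ContDiff ℝ 1 (Th P k) := contDiff_id.add
    ((((contDiff_id.inner ℝ contDiff_id).pow _).sub contDiff_const).smul P.contDiff)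
  have d : HasFDerivAt (Th P k) _ X := (hasFDerivAt_id X).add
    (((((hasFDerivAt_id X).inner ℝ (hasFDerivAt_id X)).pow (k + 1)).sub_const 1).smul P.hasFDerivAt)
  have e : ∀ w, fderiv ℝ (Th P k) X w = w + (⟪X, X⟫ ^ (k + 1) - 1) • P w +
      (2 * (k + 1) * ⟪X, X⟫ ^ k * ⟪X, w⟫) • P X := fun w => by
    rw [d.fderiv]
    simp [fderivInnerCLM_apply, real_inner_comm X w, add_assoc]
    congr 1
    ring
  have p : 0 < ⟪X, X⟫ := real_inner_self_pos.2 h0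
  refine ⟨_, c.contDiffAt.hasStrictFDerivAt one_ne_zero, (injective_iff_map_eq_zero _).2
    fun w hw => ?_, ?_⟩
  · rw [e] at hw
    have h1 := congrArg P hw
    simp only [map_add, map_smul, hP, map_zero] at h1
    have h2 : w = P w := by linear_combination (norm := module) hw - h1
    have h3 : ⟪X, X⟫ ^ (k + 1) • w = -(2 * (k + 1) * ⟪X, X⟫ ^ k * ⟪X, w⟫) • P X := by
      rw [← h2] at hw
      linear_combination (norm := module) hw
    have h4 := congrArg (fun v => ⟪X, v⟫) h3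
    simp only [real_inner_smul_right] at h4
    have h5 : ⟪X, X⟫ ^ k * La P k X * ⟪X, w⟫ = 0 := by
      rw [La]
      linear_combination h4
    rw [(mul_eq_zero.1 h5).resolve_left (by positivity)] at h3
    simpa [h0] using h3
  · rw [e]
    simp only [Zf, Th, map_sub, map_smul, hP, inner_sub_right, real_inner_smul_right, La]
    match_scalars <;> ring

/-- the radial extension -/
def Xi (T : E → E) (x : E) : E := ‖x‖ • T (‖x‖⁻¹ • x)

theorem Xi_der {T : E → E} {D : E →L[ℝ] E} {x : E} (h0 : x ≠ 0)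
    (hT : HasStrictFDerivAt T D (‖x‖⁻¹ • x))
    (h : ∀ (a : ℝ) v, ⟪‖x‖⁻¹ • x, v⟫ = 0 → a • T (‖x‖⁻¹ • x) + D v = 0 → a = 0 ∧ v = 0) :
    ∃ D' : E →L[ℝ] E, HasStrictFDerivAt (Xi T) D' x ∧ Injective D' := by
  have n0 : ‖x‖ ≠ 0 := norm_ne_zero_iff.2 h0
  have c1 : ContDiffAt ℝ 1 (fun y : E => ‖y‖) x := contDiffAt_norm ℝ h0
  have c2 : ContDiffAt ℝ 1 (fun y : E => ‖y‖⁻¹ • y) x := (c1.inv n0).smul contDiffAt_id
  have d1 := c1.hasStrictFDerivAt one_ne_zero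
  have d2 := c2.hasStrictFDerivAt one_ne_zero
  set A := fderiv ℝ (fun y : E => ‖y‖) x
  set B := fderiv ℝ (fun y : E => ‖y‖⁻¹ • y) x
  have ev : ∀ᶠ y in 𝓝 x, ‖y‖ ≠ 0 := c1.continuousAt.eventually_ne n0
  have e1 := (d2.hasFDerivAt.inner ℝ d2.hasFDerivAt).unique
    ((hasFDerivAt_const (1 : ℝ) x).congr_of_eventuallyEq (ev.mono fun y hy => by
      simp only [real_inner_self_eq_norm_mul_norm, norm_smul, norm_inv, norm_norm]
      field_simp))
  have e2 := (d1.hasFDerivAt.smul d2.hasFDerivAt).unique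
    ((hasFDerivAt_id x).congr_of_eventuallyEq (ev.mono fun y hy => by
      simp [smul_smul, hy]))
  refine ⟨_, d1.smul (HasStrictFDerivAt.comp (f := fun y : E => ‖y‖⁻¹ • y) x hT d2), (injective_iff_map_eq_zero _).2 fun v hv => ?_⟩
  have f1 := congrArg (fun L => L v) e1
  have f2 := congrArg (fun L => L v) e2
  simp [fderivInnerCLM_apply, real_inner_comm (‖x‖⁻¹ • x)] at f1 f2 hv
  obtain ⟨g1, g2⟩ := h (A v) (‖x‖ • B v) (by rw [real_inner_smul_right, f1, mul_zero])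
    (by rw [map_smul, add_comm]; exact hv)
  rw [← f2, g1, g2, zero_smul, add_zero]

theorem emb {ρ : E ≃L[ℝ] Fin n → ℝ} {Γ : Set (E ≃ₗᵢ[ℝ] E)} (hC : Cham ρ Γ) (P : E →L[ℝ] E)
    (hP : ∀ j, (∀ x, ρ (P x) j = ρ x j) ∨ ∀ x, ρ (P x) j = 0) (k : ℕ) (F : E → E)
    (heq : ∀ g ∈ Γ, ∀ x, ‖x‖ = 1 → F (g x) = g (F x))
    (h : ∀ x, ‖x‖ = 1 → 0 ≤ ρ x → ∃ D : E →L[ℝ] E, HasStrictFDerivAt F D x ∧
      (∀ (a : ℝ) v, ⟪x, v⟫ = 0 → a • Zf P k (F x) + D v = 0 → a = 0 ∧ v = 0) ∧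
      0 < La P k (F x) ∧ 0 < ∑ j, ρ (Th P k (F x)) j) : InjOn F (Metric.sphere 0 1) := by
  have PP : ∀ x, P (P x) = P x := fun x => ρ.injective (funext fun j => by
    rcases hP j with e | e <;> simp only [e])
  have F0 : ∀ x, ‖x‖ = 1 → 0 ≤ ρ x → F x ≠ 0 := fun x p q e => by
    obtain ⟨_, -, -, l, -⟩ := h x p q
    simp [e, La] at l
  have F1 : ∀ x, ‖x‖ = 1 → F x ≠ 0 := fun x p e => by
    obtain ⟨g, hg, q⟩ := hC.cover x
    exact F0 (g x) ((g.norm_map x).trans p) q (by rw [heq g hg x p, e, map_zero])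
  have T1 : ∀ X j, X ≠ 0 → ∃ c : ℝ, 0 < c ∧ ρ (Th P k X) j = c * ρ X j := fun X j h0 => by
    rcases hP j with e | e
    · exact ⟨_, pow_pos (real_inner_self_pos.2 h0) (k + 1), by simp [Th, e]; ring⟩
    · exact ⟨1, one_pos, by simp [Th, e]⟩
  have un : ∀ x : E, x ≠ 0 → ‖‖x‖⁻¹ • x‖ = 1 := fun x h0 => norm_smul_inv_norm (𝕜 := ℝ) h0
  have up : ∀ x : E, 0 ≤ ρ x → 0 ≤ ρ (‖x‖⁻¹ • x) := fun x p => by
    rw [map_smul]
    exact smul_nonneg (by positivity) p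
  have s0 : ∀ y : Fin n → ℝ, y ≠ 0 → ρ.symm y ≠ 0 := fun y p => by simpa using p
  have W : ∀ x j, ‖x‖ = 1 → ρ x j = 0 → ρ (F x) j = 0 := fun x j p q => by
    obtain ⟨g, hg, e⟩ := hC.refl j
    exact (e _).1 (by rw [← heq g hg x p, (e x).2 q])
  let G : (Fin n → ℝ) → Fin n → ℝ := fun y => ρ (Xi (Th P k ∘ F) (ρ.symm y))
  have G1 : ∀ x j, x ≠ 0 → ∃ c : ℝ, 0 < c ∧ G (ρ x) j = c * ρ (F (‖x‖⁻¹ • x)) j := fun x j p => by
    obtain ⟨c, hc, e⟩ := T1 _ j (F1 _ (un x p))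
    exact ⟨‖x‖ * c, mul_pos (norm_pos_iff.2 p) hc, by simp [G, Xi, e, mul_assoc]⟩
  have O : Orth G := by
    refine ⟨fun y p q => ?_, fun y t ht => ?_, fun y j p q => ?_, fun y p q => ?_⟩
    · have x0 := s0 y q
      obtain ⟨D, d, t, l, -⟩ := h _ (un _ x0) (up _ (by simpa using p))
      obtain ⟨D', d', i, e⟩ := Th_der P PP k _ (F1 _ (un _ x0)) l
      obtain ⟨A, a, ia⟩ := Xi_der x0 (d'.comp _ d) fun a v hv e' => by
        have r : a • Zf P k (F (‖ρ.symm y‖⁻¹ • ρ.symm y)) +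
            La P k (F (‖ρ.symm y‖⁻¹ • ρ.symm y)) • D v = 0 := i (by
          rw [map_add, map_smul, map_smul, e, map_zero, smul_comm, ← smul_add]
          exact smul_eq_zero_of_right _ e')
        rw [← map_smul D] at r
        obtain ⟨a0, v0⟩ := t a _ (by rw [real_inner_smul_right, hv, mul_zero]) r
        exact ⟨a0, (smul_eq_zero_iff_right l.ne').1 v0⟩
      exact ⟨_, ρ.hasStrictFDerivAt.comp y (a.comp y ρ.symm.hasStrictFDerivAt),
        ρ.injective.comp (ia.comp ρ.symm.injective)⟩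
    · simp only [G, Xi, map_smul, norm_smul, Real.norm_of_nonneg ht.le, smul_smul]
      rw [show (t * ‖ρ.symm y‖)⁻¹ * t = ‖ρ.symm y‖⁻¹ by field_simp]
    · obtain ⟨c, -, e⟩ := G1 _ j (s0 y p)
      rw [ρ.apply_symm_apply] at e
      rw [e, W _ j (un _ (s0 y p)) (by simp [q]), mul_zero]
    · obtain ⟨_, -, -, -, l⟩ := h _ (un _ (s0 y q)) (up _ (by simpa using p))
      simp only [G, Xi, map_smul, Pi.smul_apply, smul_eq_mul, ← Finset.mul_sum]
      exact mul_pos (norm_pos_iff.2 (s0 y q)) l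
  have n0 : ∀ x : E, ‖x‖ = 1 → x ≠ 0 := fun x p e => by simp [e] at p
  have pos : ∀ x j, ‖x‖ = 1 → 0 ≤ ρ x → 0 < ρ x j → 0 < ρ (F x) j := fun x j p q r => by
    obtain ⟨c, hc, e⟩ := G1 x j (n0 x p)
    have := O.pos q r
    rw [e, p, inv_one, one_smul] at this
    exact (mul_pos_iff_of_pos_left hc).1 this
  have nn : ∀ x, ‖x‖ = 1 → 0 ≤ ρ x → 0 ≤ ρ (F x) := fun x p q j => by
    rcases (q j).eq_or_lt with e | e
    · exact (W x j p e.symm).ge
    · exact (pos x j p q e).le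
  have key : ∀ g ∈ Γ, ∀ g' ∈ Γ, ∀ x, ‖x‖ = 1 → 0 ≤ ρ (g x) → 0 ≤ ρ (g' (F x)) → g' x = g x :=
    fun g hg g' hg' x p q r => by
      have p' := (g.norm_map x).trans p
      refine hC.stab g hg g' hg' (F x) x (heq g hg x p ▸ nn _ p' q) r q fun i e => ?_
      by_contra c
      exact (pos _ i p' q ((q i).lt_of_ne' c)).ne' (by rw [heq g hg x p, e])
  have I := O.inj fun y p q => by
    obtain ⟨x, rfl⟩ := ρ.surjective y
    have x0 : x ≠ 0 := fun e => p (by simp [e])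
    obtain ⟨g, hg, r⟩ := hC.cover (‖x‖⁻¹ • x)
    have := key g hg _ hC.one _ (un x x0) r fun j => by
      obtain ⟨c, hc, e⟩ := G1 x j x0
      exact nonneg_of_mul_nonneg_right (e ▸ q j) hc
    rw [← this] at r
    have := smul_nonneg (norm_nonneg x) r
    simpa [smul_smul, x0] using this
  intro a ha b hb e
  rw [mem_sphere_zero_iff_norm] at ha hb
  obtain ⟨g, hg, p⟩ := hC.cover a
  obtain ⟨g', hg', q⟩ := hC.cover b
  have a1 := (g.norm_map a).trans ha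
  have r := key g' hg' g hg b hb q (by rw [← e, ← heq g hg a ha]; exact nn _ a1 p)
  have b1 := (g.norm_map b).trans hb
  refine g.injective (ρ.injective (I ⟨p, by simpa using n0 a ha⟩
    ⟨r ▸ q, by simpa using n0 b hb⟩ ?_))
  simp only [G, Xi, ρ.symm_apply_apply, a1, b1, inv_one, one_smul, comp, heq g hg a ha,
    heq g hg b hb, e]

end Pool.Agent.MP_48470b_gt.Emb
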