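import Mathlib

/-! Homogeneous local diffeomorphisms of the positive orthant that preserve the walls. -/

set_option autoImplicit false

open Set Filter Topology Function

namespace Pool.Agent.MP_48470b_gt.Emb

variable {n : ℕ} {G : (Fin n → ℝ) → Fin n → ℝ}

/-- the standing assumptions -/
structure Orth (G : (Fin n → ℝ) → Fin n → ℝ) : Prop where
  der : ∀ y, 0 ≤ y → y ≠ 0 → ∃ D : (Fin n → ℝ) →L[ℝ] Fin n → ℝ,
    HasStrictFDerivAt G D y ∧ Injective D
  hom : ∀ y (t : ℝ), 0 < t → G (t • y) = t • G y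
  wall : ∀ y j, y ≠ 0 → y j = 0 → G y j = 0
  sum : ∀ y, 0 ≤ y → y ≠ 0 → 0 < ∑ j, G y j

theorem simp_mem {y : Fin n → ℝ} (h : y ∈ stdSimplex ℝ (Fin n)) : 0 ≤ y ∧ y ≠ 0 :=
  ⟨h.1, fun e => by simpa [e] using h.2⟩

theorem simp_norm {y : Fin n → ℝ} (h : 0 ≤ y) (h0 : y ≠ 0) :
    ∃ t : ℝ, 0 < t ∧ ∃ a ∈ stdSimplex ℝ (Fin n), y = t • a := by
  have p : 0 < ∑ j, y j := by
    obtain ⟨j, hj⟩ := Function.ne_iff.1 h0
    exact Finset.sum_pos' (fun j _ => h j) ⟨j, Finset.mem_univ _, (h j).lt_of_ne' hj⟩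
  refine ⟨_, p, (∑ j, y j)⁻¹ • y, ⟨fun j => mul_nonneg (inv_pos.2 p).le (h j), ?_⟩, ?_⟩
  · simp only [Pi.smul_apply, smul_eq_mul, ← Finset.mul_sum]
    exact inv_mul_cancel₀ p.ne'
  · rw [smul_smul, mul_inv_cancel₀ p.ne', one_smul]

theorem Orth.cont (h : Orth G) {y : Fin n → ℝ} (h1 : 0 ≤ y) (h0 : y ≠ 0) : ContinuousAt G y :=
  let ⟨_, d, _⟩ := h.der y h1 h0
  d.continuousAt

theorem Orth.no_min (h : Orth G) {x : Fin n → ℝ} {i : Fin n} {m : ℝ} (hx : 0 ≤ x) (hi : 0 < x i)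
    (h1 : ∀ y, 0 ≤ y → y ≠ 0 → m * ∑ j, G y j ≤ G y i) (h2 : m * ∑ j, G x j = G x i) : m = 1 := by
  have x0 : x ≠ 0 := fun e => by simp [e] at hi
  obtain ⟨D, hD, inj⟩ := h.der x hx x0
  let V : Submodule ℝ (Fin n → ℝ) :=
    { carrier := {v | ∀ j, x j = 0 → v j = 0}
      add_mem' := fun ha hb j e => by simp [ha j e, hb j e]
      zero_mem' := fun _ _ => rfl
      smul_mem' := fun c v ha j e => by simp [ha j e] }
  have line : ∀ v, HasDerivAt (fun t : ℝ => G (x + t • v)) (D v) 0 := fun v => by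
    have a : HasDerivAt (fun t : ℝ => x + t • v) v 0 := by
      simpa using ((hasDerivAt_id (0 : ℝ)).smul_const v).const_add x
    exact hD.hasFDerivAt.comp_hasDerivAt_of_eq 0 a (by simp)
  have ev : ∀ v ∈ V, ∀ᶠ t : ℝ in 𝓝 0, 0 ≤ x + t • v ∧ x + t • v ≠ 0 := fun v hv => by
    have c : ∀ j, 0 < x j → ∀ᶠ t : ℝ in 𝓝 0, 0 < (x + t • v) j := fun j hj =>
      ContinuousAt.eventually_lt continuousAt_const (by fun_prop) (by simpa using hj)
    refine Eventually.and (eventually_all.2 fun j => ?_) ((c i hi).mono fun t ht e => ?_)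
    · rcases (hx j).eq_or_lt with e | e
      · exact Eventually.of_forall fun t => by simp [hv j e.symm, ← e]
      · exact (c j e).mono fun _ => le_of_lt
    · exact ht.ne' (congrFun e i)
  have into : ∀ v ∈ V, D v ∈ V := fun v hv j e => by
    refine (hasDerivAt_pi.1 (line v) j).unique ((hasDerivAt_const (0 : ℝ) (0 : ℝ)).congr_of_eventuallyEq ?_)
    exact (ev v hv).mono fun t ht => h.wall _ j ht.2 (by simp [e, hv j e])
  have van : ∀ v ∈ V, D v i - m * ∑ j, D v j = 0 := fun v hv => by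
    have d := hasDerivAt_pi.1 (line v)
    refine IsLocalMin.hasDerivAt_eq_zero ?_
      ((d i).sub ((HasDerivAt.fun_sum fun j _ => d j).const_mul m))
    refine (ev v hv).mono fun t ht => ?_
    have := h1 _ ht.1 ht.2
    simp only [Pi.sub_apply, zero_smul, add_zero]
    linarith
  have sur : Surjective (D.toLinearMap.restrict into) :=
    LinearMap.injective_iff_surjective.1 fun a b e => Subtype.ext (inj (congrArg Subtype.val e))
  obtain ⟨v, hv⟩ := sur ⟨Pi.single i 1, fun j e => Pi.single_eq_of_ne (by rintro rfl; exact hi.ne' e) _⟩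
  have e : D v = Pi.single i 1 := congrArg Subtype.val hv
  have := van v v.2
  rw [e] at this
  simp at this
  linarith

theorem Orth.pos (h : Orth G) {y : Fin n → ℝ} {i : Fin n} (hy : 0 ≤ y) (hi : 0 < y i) :
    0 < G y i := by
  by_contra hn
  have y0 : y ≠ 0 := fun e => by simp [e] at hi
  obtain ⟨t, -, a, ha, -⟩ := simp_norm hy y0
  obtain ⟨x, hx, hm⟩ := (isCompact_stdSimplex ℝ (Fin n)).exists_isMinOn ⟨a, ha⟩
    (f := fun y => G y i / ∑ j, G y j) fun z hz => by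
      have c := continuousAt_pi.1 (h.cont (simp_mem hz).1 (simp_mem hz).2)
      exact ((c i).div (tendsto_finsetSum _ fun j _ => c j)
        (h.sum z (simp_mem hz).1 (simp_mem hz).2).ne').continuousWithinAt
  set m := G x i / ∑ j, G x j with hmd
  have h1 : ∀ y, 0 ≤ y → y ≠ 0 → m * ∑ j, G y j ≤ G y i := fun y p q => by
    obtain ⟨t, ht, a, ha, rfl⟩ := simp_norm p q
    have := (le_div_iff₀ (h.sum a (simp_mem ha).1 (simp_mem ha).2)).1 (hm ha)
    simp only [h.hom a t ht, Pi.smul_apply, smul_eq_mul, ← Finset.mul_sum]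
    nlinarith
  have sx := h.sum x (simp_mem hx).1 (simp_mem hx).2
  have sy := h.sum y hy y0
  have h2 : m * ∑ j, G x j = G x i := div_mul_cancel₀ _ sx.ne'
  have h3 := h1 y hy y0
  have m0 : m ≤ 0 := by nlinarith
  rcases m0.eq_or_lt with e | e
  · have := h.no_min hy hi h1 (by rw [e] at h3 ⊢; linarith)
    linarith
  · have := h.no_min (simp_mem hx).1 ((hx.1 i).lt_of_ne' fun c => by
      have := h.wall x i (simp_mem hx).2 c
      nlinarith) h1 h2
    linarith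

theorem Orth.nonneg (h : Orth G) {y : Fin n → ℝ} (hy : 0 ≤ y) (h0 : y ≠ 0) :
    0 ≤ G y ∧ G y ≠ 0 := by
  refine ⟨fun j => ?_, fun e => by simpa [e] using h.sum y hy h0⟩
  rcases (hy j).eq_or_lt with e | e
  · exact (h.wall y j h0 e.symm).ge
  · exact (h.pos hy e).le

theorem Orth.loc (h : Orth G) {y : Fin n → ℝ} (hy : 0 ≤ y) (h0 : y ≠ 0) :
    map G (𝓝 y) = 𝓝 (G y) ∧ ∃ U ∈ 𝓝 y, InjOn G U := by
  obtain ⟨D, hD, inj⟩ := h.der y hy h0
  let e : (Fin n → ℝ) ≃L[ℝ] Fin n → ℝ := (LinearEquiv.ofInjectiveEndo D.toLinearMap inj).toContinuousLinearEquiv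
  have d : HasStrictFDerivAt G (e : (Fin n → ℝ) →L[ℝ] Fin n → ℝ) y := hD
  exact ⟨d.map_nhds_eq_of_equiv, _, (d.toOpenPartialHomeomorph G).open_source.mem_nhds
    d.mem_toOpenPartialHomeomorph_source, (d.toOpenPartialHomeomorph G).injOn⟩

theorem Orth.inj (h : Orth G) (hb : ∀ y, y ≠ 0 → 0 ≤ G y → 0 ≤ y) :
    InjOn G {y | 0 ≤ y ∧ y ≠ 0} := by
  intro a ha b hb' e
  by_contra ne
  set P : Set (Fin n → ℝ) := {y | 0 ≤ y ∧ y ≠ 0}
  let W : (Fin n → ℝ) → Prop := fun z => ∃ a ∈ P, ∃ b ∈ P, a ≠ b ∧ G a = z ∧ G b = z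
  have pc : IsPreconnected P := Convex.isPreconnected fun x hx y hy s t hs ht hst => by
    refine ⟨add_nonneg (smul_nonneg hs hx.1) (smul_nonneg ht hy.1), fun e => ?_⟩
    have := (add_eq_zero_iff_of_nonneg (smul_nonneg hs hx.1) (smul_nonneg ht hy.1)).1 e
    rw [smul_eq_zero_iff_left hx.2, smul_eq_zero_iff_left hy.2] at this
    linarith [this.1, this.2]
  have opn : ∀ z, W z → ∀ᶠ z' in 𝓝[P] z, W z' := by
    rintro z ⟨a, ha, b, hb', ne, rfl, e⟩
    obtain ⟨U, U', hU, hU', d⟩ := t2_separation_nhds ne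
    have k : ∀ c ∈ P, ∀ U ∈ 𝓝 c, G '' (U ∩ {0}ᶜ) ∈ 𝓝 (G c) := fun c hc U hU =>
      (h.loc hc.1 hc.2).1 ▸ image_mem_map (inter_mem hU (isOpen_compl_singleton.mem_nhds hc.2))
    filter_upwards [mem_nhdsWithin_of_mem_nhds (k a ha U hU),
      mem_nhdsWithin_of_mem_nhds (e ▸ k b hb' U' hU'), self_mem_nhdsWithin]
    rintro z' ⟨a', p, rfl⟩ ⟨b', q, r⟩ s
    exact ⟨a', ⟨hb _ p.2 s.1, p.2⟩, b', ⟨hb _ q.2 (r ▸ s.1), q.2⟩,
      fun c => disjoint_left.1 d p.1 (c ▸ q.1), rfl, r⟩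
  have cls : ∀ z ∈ P, ¬ W z → ∀ᶠ z' in 𝓝[P] z, ¬ W z' := fun z hz hW => by
    refine mem_nhdsWithin_of_mem_nhds (not_frequently.1 fun f => hW ?_)
    obtain ⟨u, hu, w⟩ := frequently_iff_seq_forall.1 f
    choose a ha b hb' ne e1 e2 using w
    have sub : ∀ a : ℕ → Fin n → ℝ, (∀ k, a k ∈ P) → ∀ u : ℕ → Fin n → ℝ, Tendsto u atTop (𝓝 z) →
        (∀ k, G (a k) = u k) → ∃ c ∈ P, G c = z ∧ ∃ φ : ℕ → ℕ, StrictMono φ ∧
          Tendsto (a ∘ φ) atTop (𝓝 c) := fun a ha u hu e => by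
      choose t ht s hs es using fun k => simp_norm (ha k).1 (ha k).2
      obtain ⟨c, hc, φ, hφ, l⟩ := (isCompact_stdSimplex ℝ (Fin n)).tendsto_subseq hs
      have c1 := simp_mem hc
      have l1 := tendsto_pi_nhds.1 ((h.cont c1.1 c1.2).tendsto.comp l)
      have l2 := tendsto_pi_nhds.1 (hu.comp hφ.tendsto_atTop)
      obtain ⟨r, hr, z', hz', rfl⟩ := simp_norm hz.1 hz.2
      have l3 : Tendsto (t ∘ φ) atTop (𝓝 (r / ∑ j, G c j)) := by
        have := (tendsto_finsetSum Finset.univ fun j _ => l2 j).div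
          (tendsto_finsetSum Finset.univ fun j _ => l1 j) (h.sum c c1.1 c1.2).ne'
        simp only [Pi.smul_apply, smul_eq_mul, ← Finset.mul_sum, hz'.2, mul_one] at this
        refine this.congr fun k => ?_
        have q := simp_mem (hs (φ k))
        simp only [Pi.div_apply, comp, ← e, es (φ k), h.hom _ _ (ht _), Pi.smul_apply, smul_eq_mul,
          ← Finset.mul_sum]
        exact mul_div_cancel_right₀ _ (h.sum _ q.1 q.2).ne'
      have p : 0 < r / ∑ j, G c j := div_pos hr (h.sum c c1.1 c1.2)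
      have l4 : Tendsto (a ∘ φ) atTop (𝓝 ((r / ∑ j, G c j) • c)) :=
        (l3.smul l).congr fun k => (es (φ k)).symm
      have m : (r / ∑ j, G c j) • c ∈ P := ⟨smul_nonneg p.le c1.1, smul_ne_zero p.ne' c1.2⟩
      exact ⟨_, m, tendsto_nhds_unique ((h.cont m.1 m.2).tendsto.comp l4)
        ((hu.comp hφ.tendsto_atTop).congr fun k => (e _).symm), φ, hφ, l4⟩
    obtain ⟨c, hc, ec, φ, hφ, l⟩ := sub a ha u hu e1
    obtain ⟨d, hd, ed, ψ, hψ, l'⟩ := sub (b ∘ φ) (fun k => hb' _) (u ∘ φ)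
      (hu.comp hφ.tendsto_atTop) fun k => e2 _
    refine ⟨c, hc, d, hd, ?_, ec, ed⟩
    rintro rfl
    obtain ⟨U, hU, i⟩ := (h.loc hc.1 hc.2).2
    obtain ⟨k, p, q⟩ := (((l.comp hψ.tendsto_atTop).eventually hU).and (l'.eventually hU)).exists
    exact ne _ (i p q ((e1 _).trans (e2 _).symm))
  obtain ⟨i, -⟩ := Function.ne_iff.1 ha.2
  have v : (Pi.single i 1 : Fin n → ℝ) ∈ P :=
    ⟨Pi.single_nonneg.2 zero_le_one, fun e => by simpa using congrFun e i⟩
  have R := pc.induction₂' (fun z z' => W z ↔ W z') (fun z hz => by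
    by_cases c : W z
    · exact (opn z c).mono fun _ d => ⟨iff_of_true c d, iff_of_true d c⟩
    · exact (cls z hz c).mono fun _ d => ⟨iff_of_false c d, iff_of_false d c⟩)
    (fun _ _ _ _ _ _ => Iff.trans) (h.nonneg ha.1 ha.2) v
  obtain ⟨c, hc, d, hd, ne', e1, e2⟩ := R.1 ⟨a, ha, b, hb', ne, rfl, e.symm⟩
  have k : ∀ c ∈ P, G c = Pi.single i 1 → ∃ t : ℝ, c = t • Pi.single i 1 ∧
      t * G (Pi.single i 1) i = 1 := fun c hc e => by
    have z : c = c i • Pi.single i 1 := funext fun j => by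
      by_cases q : j = i
      · simp [q]
      · have := mt (h.pos hc.1 (i := j)) (by simp [e, q])
        simpa [q] using (not_lt.1 this).antisymm (hc.1 j)
    have p : 0 < c i := (hc.1 i).lt_of_ne' fun q => hc.2 (by rw [z, q]; exact zero_smul _ _)
    refine ⟨_, z, ?_⟩
    have := congrFun (h.hom (Pi.single i 1) _ p) i
    rw [← z, e] at this
    simpa using this.symm
  obtain ⟨s, rfl, p⟩ := k c hc e1
  obtain ⟨t, rfl, q⟩ := k d hd e2
  exact ne' (by rw [mul_right_cancel₀ (right_ne_zero_of_mul_eq_one p) (p.trans q.symm)])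

end Pool.Agent.MP_48470b_gt.Emb
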